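import Mathlib
import Pool.Agent.H510R2.Div
import Pool.Agent.Y379.GP.Sp

/-! (OFF): the off-diagonal divisor sum. -/

set_option autoImplicit false

namespace Pool.Agent.Y379.GP

open Pool.Agent.Y969.GP

/-- the bound for one pair of products -/
noncomputable def G1 (a b : ℕ) : ℝ := if a < b then 1 / ((a : ℝ) * ((b : ℝ) - a)) else 0

theorem G1_nonneg (a b : ℕ) : 0 ≤ G1 a b := by
  unfold G1
  split_ifs with h
  · have : (a : ℝ) < b := by exact_mod_cast h
    have h2 : 0 < (b : ℝ) - a := by linarith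
    positivity
  · exact le_rfl

theorem mk_le {T x : ℝ} (hT : 0 < T) {y : ℝ} (hy : 0 < y) (hx : y ≤ |x|) :
    mk T x ≤ 1 / y := by
  unfold mk
  rw [div_le_div_iff₀ (by positivity) hy]
  nlinarith

theorem log_sub {a b : ℕ} (ha : 1 ≤ a) (hab : a < b) :
    ((b : ℝ) - a) / b ≤ Real.log b - Real.log a := by
  have ha0 : (0 : ℝ) < a := by exact_mod_cast ha
  have hb0 : (0 : ℝ) < b := by exact_mod_cast (lt_of_lt_of_le ha hab.le)
  have h2 : Real.log (a / b : ℝ) ≤ a / b - 1 := Real.log_le_sub_one_of_pos (by positivity)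
  rw [Real.log_div ha0.ne' hb0.ne'] at h2
  have h3 : ((b : ℝ) - a) / b = 1 - a / b := by field_simp
  linarith

theorem term_le {T : ℝ} (hT : 1 ≤ T) {a b : ℕ} (ha : 1 ≤ a) (hb : 1 ≤ b) (hab : a ≠ b) :
    ((a : ℝ) * b)⁻¹ * mk T (Real.log b - Real.log a) ≤ G1 a b + G1 b a := by
  have ha0 : (0 : ℝ) < a := by exact_mod_cast ha
  have hb0 : (0 : ℝ) < b := by exact_mod_cast hb
  rcases lt_or_gt_of_ne hab with h | h
  · have h' : (a : ℝ) < b := by exact_mod_cast h
    have hd : 0 < (b : ℝ) - a := by linarith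
    have h1 := log_sub ha h
    have h2 : mk T (Real.log b - Real.log a) ≤ 1 / (((b : ℝ) - a) / b) :=
      mk_le (by linarith) (by positivity) (h1.trans (le_abs_self _))
    have h3 : G1 b a = 0 := by unfold G1; rw [if_neg (by omega)]
    have h4 : G1 a b = 1 / ((a : ℝ) * ((b : ℝ) - a)) := by unfold G1; rw [if_pos h]
    rw [h3, h4, add_zero]
    calc ((a : ℝ) * b)⁻¹ * mk T (Real.log b - Real.log a)
        ≤ ((a : ℝ) * b)⁻¹ * (1 / (((b : ℝ) - a) / b)) :=
          mul_le_mul_of_nonneg_left h2 (by positivity)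
      _ = 1 / ((a : ℝ) * ((b : ℝ) - a)) := by field_simp
  · have h' : (b : ℝ) < a := by exact_mod_cast h
    have hd : 0 < (a : ℝ) - b := by linarith
    have h1 := log_sub hb h
    have h2 : mk T (Real.log b - Real.log a) ≤ 1 / (((a : ℝ) - b) / a) := by
      refine mk_le (by linarith) (by positivity) ?_
      rw [abs_sub_comm]
      exact h1.trans (le_abs_self _)
    have h3 : G1 a b = 0 := by unfold G1; rw [if_neg (by omega)]
    have h4 : G1 b a = 1 / ((b : ℝ) * ((a : ℝ) - b)) := by unfold G1; rw [if_pos h]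
    rw [h3, h4, zero_add]
    calc ((a : ℝ) * b)⁻¹ * mk T (Real.log b - Real.log a)
        ≤ ((a : ℝ) * b)⁻¹ * (1 / (((a : ℝ) - b) / a)) :=
          mul_le_mul_of_nonneg_left h2 (by positivity)
      _ = 1 / ((b : ℝ) * ((a : ℝ) - b)) := by field_simp

theorem sum_G1 (N : ℕ) :
    ∑ a ∈ Finset.Icc 1 N, ∑ b ∈ Finset.Icc 1 N, G1 a b ≤ (1 + Real.log N) ^ 2 := by
  classical
  have h1 : ∀ a ∈ Finset.Icc 1 N, ∑ b ∈ Finset.Icc 1 N, G1 a b ≤
      1 / (a : ℝ) * (1 + Real.log N) := by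
    intro a ha
    rw [Finset.mem_Icc] at ha
    have ha0 : (0 : ℝ) < a := by exact_mod_cast ha.1
    have h2 : ∑ b ∈ Finset.Icc 1 N, G1 a b =
        ∑ b ∈ (Finset.Icc 1 N).filter (fun b => a < b), 1 / ((a : ℝ) * (((b - a : ℕ) : ℝ))) := by
      rw [Finset.sum_filter]
      apply Finset.sum_congr rfl
      intro b _
      unfold G1
      split_ifs with h
      · rw [Nat.cast_sub h.le]
      · rfl
    rw [h2]
    have h3 : ∑ b ∈ (Finset.Icc 1 N).filter (fun b => a < b),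
        1 / ((a : ℝ) * (((b - a : ℕ) : ℝ))) = 1 / (a : ℝ) *
        ∑ d ∈ ((Finset.Icc 1 N).filter (fun b => a < b)).image (fun b => b - a), 1 / (d : ℝ) := by
      rw [Finset.sum_image, Finset.mul_sum]
      · apply Finset.sum_congr rfl
        intro b _
        rw [one_div_mul_one_div]
      · intro b hb b' hb' hbb
        have q1 := (Finset.mem_filter.1 hb).2
        have q2 := (Finset.mem_filter.1 hb').2
        simp only at hbb
        omega
    rw [h3]
    apply mul_le_mul_of_nonneg_left _ (by positivity)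
    refine le_trans ?_ (harm N)
    apply Finset.sum_le_sum_of_subset_of_nonneg
    · intro d hd
      obtain ⟨b, hb, rfl⟩ := Finset.mem_image.1 hd
      have q1 := Finset.mem_filter.1 hb
      have q2 := Finset.mem_Icc.1 q1.1
      rw [Finset.mem_Icc]
      omega
    · intro d _ _
      positivity
  refine (Finset.sum_le_sum h1).trans ?_
  rw [← Finset.sum_mul]
  rcases Nat.eq_zero_or_pos N with h0 | h0
  · subst h0; simp
  have h4 := harm N
  have h5 : 0 ≤ Real.log N := Real.log_natCast_nonneg N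
  have h6 := mul_le_mul_of_nonneg_right h4 (show 0 ≤ 1 + Real.log N by linarith)
  rw [sq]
  exact h6

theorem t_OFF : S_OFF := by
  classical
  intro K κ hκ
  set ε : ℝ := κ / (4 * ((K : ℝ) ^ 2 + 1)) with hε
  have hε0 : 0 < ε := by positivity
  obtain ⟨D, hD0, hD⟩ := Pool.Agent.H510R2.divisor_bound ε hε0
  refine ⟨(D * D) ^ K * (2 * (1 + 4 * K / κ) ^ 2), by positivity, ?_⟩
  intro X T hX hT
  have hX0 : (0 : ℝ) < X := by exact_mod_cast hX
  have hX1 : (1 : ℝ) ≤ X := by exact_mod_cast hX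
  set Q := (Fintype.piFinset (fun _ : Fin K => FR X)).filter
      (fun q => ∏ j, (q j).1 ≠ ∏ j, (q j).2) with hQ
  set N : ℕ := X ^ K with hN
  have hmem : ∀ q ∈ Q, ∀ j, q j ∈ FR X := by
    intro q hq
    exact Fintype.mem_piFinset.1 (Finset.mem_filter.1 hq).1
  have hA : ∀ q ∈ Q, (∏ j, (q j).1) ∈ Finset.Icc 1 N ∧ (∏ j, (q j).2) ∈ Finset.Icc 1 N := by
    intro q hq
    have h1 := hmem q hq
    rw [Finset.mem_Icc, Finset.mem_Icc]
    refine ⟨⟨?_, ?_⟩, ⟨?_, ?_⟩⟩
    · exact Nat.one_le_iff_ne_zero.2 (Finset.prod_ne_zero_iff.2 fun j _ => by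
        have := (mem_FR (h1 j)).1
        omega)
    · refine (Finset.prod_le_prod' (fun j _ => (mem_FR (h1 j)).2.2.2.2.1)).trans ?_
      simp [hN]
    · exact Nat.one_le_iff_ne_zero.2 (Finset.prod_ne_zero_iff.2 fun j _ => by
        have := (mem_FR (h1 j)).2.1
        omega)
    · refine (Finset.prod_le_prod' (fun j _ => (mem_FR (h1 j)).2.2.2.2.2)).trans ?_
      simp [hN]
  have hterm : ∀ q ∈ Q, (∏ j, (ht (q j))⁻¹) * mk T (∑ j, lam (q j)) ≤
      G1 (∏ j, (q j).1) (∏ j, (q j).2) + G1 (∏ j, (q j).2) (∏ j, (q j).1) := by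
    intro q hq
    have h1 := hmem q hq
    have h2 : (∏ j, (ht (q j))⁻¹) = (((∏ j, (q j).1 : ℕ) : ℝ) * ((∏ j, (q j).2 : ℕ) : ℝ))⁻¹ := by
      rw [Finset.prod_inv_distrib]
      congr 1
      unfold ht
      rw [Finset.prod_mul_distrib]
      push_cast
      rfl
    have h3 : ∑ j, lam (q j) = Real.log ((∏ j, (q j).2 : ℕ) : ℝ) -
        Real.log ((∏ j, (q j).1 : ℕ) : ℝ) := by
      unfold lam
      rw [Finset.sum_sub_distrib]
      push_cast
      rw [Real.log_prod, Real.log_prod]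
      · intro j _
        have := (mem_FR (h1 j)).1
        exact_mod_cast (by omega : (q j).1 ≠ 0)
      · intro j _
        have := (mem_FR (h1 j)).2.1
        exact_mod_cast (by omega : (q j).2 ≠ 0)
    rw [h2, h3]
    exact term_le hT (Finset.mem_Icc.1 (hA q hq).1).1 (Finset.mem_Icc.1 (hA q hq).2).1
      (Finset.mem_filter.1 hq).2
  refine (Finset.sum_le_sum hterm).trans ?_
  have hfib := Finset.sum_fiberwise_of_maps_to (s := Q)
    (t := Finset.Icc 1 N ×ˢ Finset.Icc 1 N) (g := fun q => (∏ j, (q j).1, ∏ j, (q j).2))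
    (fun q hq => Finset.mem_product.2 (hA q hq))
    (fun q => G1 (∏ j, (q j).1) (∏ j, (q j).2) + G1 (∏ j, (q j).2) (∏ j, (q j).1))
  rw [← hfib]
  have hdiv : ∀ a ∈ Finset.Icc 1 N, (a.divisors.card : ℝ) ≤ D * (X : ℝ) ^ (K * ε) := by
    intro a ha
    rw [Finset.mem_Icc] at ha
    refine (hD a ha.1).trans ?_
    apply mul_le_mul_of_nonneg_left _ hD0.le
    have h1 : (a : ℝ) ≤ (X : ℝ) ^ K := by exact_mod_cast ha.2
    calc (a : ℝ) ^ ε ≤ ((X : ℝ) ^ K) ^ ε :=
          Real.rpow_le_rpow (by positivity) h1 hε0.le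
      _ = (X : ℝ) ^ (K * ε) := by rw [Real.rpow_mul hX0.le, Real.rpow_natCast]
  have hcount : ∀ ab ∈ Finset.Icc 1 N ×ˢ Finset.Icc 1 N,
      ∑ q ∈ Q.filter (fun q => (∏ j, (q j).1, ∏ j, (q j).2) = ab),
        (G1 (∏ j, (q j).1) (∏ j, (q j).2) + G1 (∏ j, (q j).2) (∏ j, (q j).1)) ≤
      ((D * D) ^ K * (X : ℝ) ^ (κ / 2)) * (G1 ab.1 ab.2 + G1 ab.2 ab.1) := by
    rintro ⟨a, b⟩ hab
    rw [Finset.mem_product] at hab
    simp only at hab ⊢
    have h1 : ∑ q ∈ Q.filter (fun q => (∏ j, (q j).1, ∏ j, (q j).2) = (a, b)),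
        (G1 (∏ j, (q j).1) (∏ j, (q j).2) + G1 (∏ j, (q j).2) (∏ j, (q j).1)) =
        ∑ q ∈ Q.filter (fun q => (∏ j, (q j).1, ∏ j, (q j).2) = (a, b)),
          (G1 a b + G1 b a) := by
      apply Finset.sum_congr rfl
      intro q hq
      have h2 := (Finset.mem_filter.1 hq).2
      rw [Prod.mk.injEq] at h2
      rw [h2.1, h2.2]
    rw [h1, Finset.sum_const, nsmul_eq_mul]
    apply mul_le_mul_of_nonneg_right _ (add_nonneg (G1_nonneg _ _) (G1_nonneg _ _))
    have h3 : Q.filter (fun q => (∏ j, (q j).1, ∏ j, (q j).2) = (a, b)) ⊆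
        Fintype.piFinset (fun _ : Fin K => a.divisors ×ˢ b.divisors) := by
      intro q hq
      have h2 := (Finset.mem_filter.1 hq).2
      rw [Prod.mk.injEq] at h2
      rw [Fintype.mem_piFinset]
      intro j
      rw [Finset.mem_product, Nat.mem_divisors, Nat.mem_divisors]
      have ha1 := (Finset.mem_Icc.1 hab.1).1
      have hb1 := (Finset.mem_Icc.1 hab.2).1
      refine ⟨⟨?_, by omega⟩, ⟨?_, by omega⟩⟩
      · rw [← h2.1]; exact Finset.dvd_prod_of_mem (fun j => (q j).1) (Finset.mem_univ j)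
      · rw [← h2.2]; exact Finset.dvd_prod_of_mem (fun j => (q j).2) (Finset.mem_univ j)
    have h4 := Finset.card_le_card h3
    rw [Fintype.card_piFinset, Finset.prod_const, Finset.card_univ, Fintype.card_fin,
      Finset.card_product] at h4
    have h5 : ((Q.filter (fun q => (∏ j, (q j).1, ∏ j, (q j).2) = (a, b))).card : ℝ) ≤
        ((a.divisors.card : ℝ) * (b.divisors.card : ℝ)) ^ K := by exact_mod_cast h4
    refine h5.trans ?_
    have h6 : (a.divisors.card : ℝ) * (b.divisors.card : ℝ) ≤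
        (D * D) * ((X : ℝ) ^ (K * ε) * (X : ℝ) ^ (K * ε)) := by
      calc (a.divisors.card : ℝ) * (b.divisors.card : ℝ)
          ≤ (D * (X : ℝ) ^ (K * ε)) * (D * (X : ℝ) ^ (K * ε)) :=
            mul_le_mul (hdiv a hab.1) (hdiv b hab.2) (by positivity) (by positivity)
        _ = _ := by ring
    refine (pow_le_pow_left₀ (by positivity) h6 K).trans ?_
    rw [mul_pow]
    apply mul_le_mul_of_nonneg_left _ (by positivity)
    rw [← Real.rpow_add hX0, ← Real.rpow_natCast, ← Real.rpow_mul hX0.le]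
    apply Real.rpow_le_rpow_of_exponent_le hX1
    have h7 : (K * ε + K * ε) * K = κ / 2 * ((K : ℝ) ^ 2 / ((K : ℝ) ^ 2 + 1)) := by
      rw [hε]; field_simp; ring
    rw [h7]
    have h8 : (K : ℝ) ^ 2 / ((K : ℝ) ^ 2 + 1) ≤ 1 := by
      rw [div_le_one (by positivity)]; linarith
    nlinarith
  refine (Finset.sum_le_sum hcount).trans ?_
  rw [← Finset.mul_sum, Finset.sum_add_distrib, Finset.sum_product, Finset.sum_product]
  have hsw : ∑ a ∈ Finset.Icc 1 N, ∑ b ∈ Finset.Icc 1 N, G1 b a =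
      ∑ a ∈ Finset.Icc 1 N, ∑ b ∈ Finset.Icc 1 N, G1 a b := Finset.sum_comm
  simp only [hsw]
  have h9 := sum_G1 N
  have h10 : (1 + Real.log N) ^ 2 ≤ (1 + 4 * K / κ) ^ 2 * (X : ℝ) ^ (κ / 2) := by
    have h11 : Real.log N = K * Real.log X := by
      rw [hN]; push_cast; rw [Real.log_pow]
    have h12 : Real.log X ≤ (X : ℝ) ^ (κ / 4) / (κ / 4) :=
      Real.log_le_rpow_div hX0.le (by positivity)
    have h13 : 1 ≤ (X : ℝ) ^ (κ / 4) := Real.one_le_rpow hX1 (by positivity)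
    have h14 : 1 + Real.log N ≤ (1 + 4 * K / κ) * (X : ℝ) ^ (κ / 4) := by
      rw [h11]
      have h15 : (K : ℝ) * Real.log X ≤ K * ((X : ℝ) ^ (κ / 4) / (κ / 4)) :=
        mul_le_mul_of_nonneg_left h12 (by positivity)
      have h16 : (1 + 4 * K / κ) * (X : ℝ) ^ (κ / 4) =
          (X : ℝ) ^ (κ / 4) + K * ((X : ℝ) ^ (κ / 4) / (κ / 4)) := by field_simp
      linarith
    have h17 : 0 ≤ 1 + Real.log N := by
      have := Real.log_natCast_nonneg N
      linarith
    calc (1 + Real.log N) ^ 2 ≤ ((1 + 4 * K / κ) * (X : ℝ) ^ (κ / 4)) ^ 2 :=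
          pow_le_pow_left₀ h17 h14 2
      _ = (1 + 4 * K / κ) ^ 2 * (X : ℝ) ^ (κ / 2) := by
          rw [mul_pow, ← Real.rpow_natCast ((X : ℝ) ^ (κ / 4)), ← Real.rpow_mul hX0.le]
          congr 2
          push_cast
          ring
  have h18 : (X : ℝ) ^ κ = (X : ℝ) ^ (κ / 2) * (X : ℝ) ^ (κ / 2) := by
    rw [← Real.rpow_add hX0]; congr 1; ring
  rw [h18]
  calc (D * D) ^ K * (X : ℝ) ^ (κ / 2) * (∑ a ∈ Finset.Icc 1 N, ∑ b ∈ Finset.Icc 1 N, G1 a b +
        ∑ a ∈ Finset.Icc 1 N, ∑ b ∈ Finset.Icc 1 N, G1 a b)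
      ≤ (D * D) ^ K * (X : ℝ) ^ (κ / 2) * (2 * ((1 + 4 * K / κ) ^ 2 * (X : ℝ) ^ (κ / 2))) := by
        apply mul_le_mul_of_nonneg_left _ (by positivity)
        linarith
    _ = _ := by ring

end Pool.Agent.Y379.GP
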